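import Mathlib
import Pool.Agent.Helper91.EQM.Sev
import Pool.Agent.Helper77.EQ.Cex

/-!
# Project EQMU: the data of the primes with the form of the inertia vectors
-/

set_option autoImplicit false

open NumberField IsDedekindDomain Module Polynomial

open scoped Pointwise nonZeroDivisors

namespace Pool.Agent.Helper77.EQMU

open Helper45.TC Helper91.LIN

open Helper77.TC (exists_gen gen_notMem)

open Helper84.TC (un up cj mem_cj un_cj cj_mul cj_one cj_inj exists_cj finite_preimage mem_up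
  nm_un_eq mem_un)

open Pool.Agent.Helper90.EQ (Psg Tow Sev dg)

open Pool.Agent.Helper91.EQ

open Pool.Agent.Helper91.EQM (TwoL W1 W2)

/-- The vectors `x j` are nonzero multiples of `γ(t)`, of `γ'(t)`, or of the last unit vector. -/
def Shp {p δ : ℕ} {ι : Type} (x : ι → Fin (δ + 1) → ZMod p) : Prop :=
  ∀ j, ∃ k : ZMod p, k ≠ 0 ∧ ((∃ t : ZMod p, ∀ a, x j a = k * dg 0 a t) ∨
    (∃ t : ZMod p, ∀ a, x j a = k * dg 1 a t) ∨ ∀ a, x j a = if a = Fin.last δ then k else 0)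

/-- there is a linear form which does not vanish at the inertia vectors -/
theorem sum_ne {p : ℕ} [Fact p.Prime] {δ : ℕ} (h3 : 3 ≤ δ) (hp : 2 * δ ≤ p) (hd : Odd δ) :
    ∃ C : Fin (δ + 1) → ZMod p, ∀ (ι : Type) (x : ι → Fin (δ + 1) → ZMod p), Shp x →
      ∀ j, ∑ a, C a * x j a ≠ 0 := by
  obtain ⟨c, hc, h0, h1⟩ := Helper77.EQ.exists_C (p := p) h3 hp hd
  refine ⟨fun a => c.coeff a, fun ι x hx j => ?_⟩
  have hev : ∀ t : ZMod p, c.eval t = ∑ a : Fin (δ + 1), c.coeff a * t ^ (a : ℕ) := by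
    intro t
    rw [eval_eq_sum_range, hc]
    exact (Fin.sum_univ_eq_sum_range (fun i => c.coeff i * t ^ i) (δ + 1)).symm
  have hev1 : ∀ t : ZMod p, (derivative c).eval t =
      ∑ a : Fin (δ + 1), c.coeff a * (((a : ℕ) : ZMod p) * t ^ ((a : ℕ) - 1)) := by
    intro t
    have h2 : c = ∑ a : Fin (δ + 1), C (c.coeff a) * X ^ (a : ℕ) := by
      conv_lhs => rw [c.as_sum_range_C_mul_X_pow, hc]
      exact (Fin.sum_univ_eq_sum_range (fun i => C (c.coeff i) * X ^ i) (δ + 1)).symm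
    conv_lhs => rw [h2]
    rw [derivative_sum, eval_finsetSum]
    refine Finset.sum_congr rfl fun a _ => ?_
    rw [derivative_C_mul, derivative_X_pow, eval_mul, eval_C, eval_mul, eval_C, eval_pow, eval_X]
  obtain ⟨k, hk, ⟨t, ht⟩ | ⟨t, ht⟩ | ht⟩ := hx j
  · have h2 : ∑ a : Fin (δ + 1), c.coeff a * x j a = k * c.eval t := by
      rw [hev, Finset.mul_sum]
      refine Finset.sum_congr rfl fun a _ => ?_
      rw [ht, dg, Nat.descFactorial_zero, Nat.cast_one, one_mul, Nat.sub_zero]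
      ring
    rw [h2]
    exact mul_ne_zero hk (h0 t)
  · have h2 : ∑ a : Fin (δ + 1), c.coeff a * x j a = k * (derivative c).eval t := by
      rw [hev1, Finset.mul_sum]
      refine Finset.sum_congr rfl fun a _ => ?_
      rw [ht, dg, Nat.descFactorial_one]
      ring
    rw [h2]
    exact mul_ne_zero hk (h1 t)
  · have h2 : ∑ a : Fin (δ + 1), c.coeff a * x j a = c.leadingCoeff * k := by
      rw [Finset.sum_eq_single (Fin.last δ)]
      · rw [ht, if_pos rfl, leadingCoeff, hc]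
        rfl
      · intro b _ hb
        rw [ht, if_neg hb, mul_zero]
      · exact fun h => absurd (Finset.mem_univ _) h
    rw [h2]
    refine mul_ne_zero (leadingCoeff_ne_zero.2 ?_) hk
    rintro rfl
    rw [natDegree_zero] at hc
    omega

theorem exists_twoL' {K L : Type} [Field K] [NumberField K] [Field L] [NumberField L]
    [Algebra K L] {p : ℕ} [Fact p.Prime] {r e : ℕ} {ω : ZMod p} {h σ : L ≃ₐ[K] L}
    {w₀ : HeightOneSpectrum (𝓞 L)} {l₀ : 𝓞 L → ZMod p} (D : Tow K L p (e + e) r ω h σ w₀ l₀)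
    {δ : ℕ} (hδ : 1 ≤ δ) (hδc : e + e ∣ δ - 1) (hδp : δ < p) :
    ∃ (l₁ l₂ : Yu p L) (B : ZMod p), TwoL p δ e ω h σ (lu D.lg) l₁ l₂ B ∧ B ≠ 0 := by
  obtain ⟨l₁, l₂, B, h0, h1, h2, h3, h4⟩ := exists_lT D hδ hδc hδp
  exact ⟨l₁, l₂, B, ⟨h1, h2, h3, h4⟩, h0⟩

section sev

/-- The data of the primes, for all second primes, with the form of the inertia vectors. -/
theorem exists_sev_of' {K L : Type} [Field K] [NumberField K] [Field L] [NumberField L]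
    [Algebra K L] (Ω : Type) [Field Ω] [Algebra L Ω] [IsGalois L Ω] [IsAlgClosed Ω] {p : ℕ}
    [Fact p.Prime] {r e : ℕ} {ω : ZMod p} {h σ : L ≃ₐ[K] L} {w₀ : HeightOneSpectrum (𝓞 L)}
    {l₀ : 𝓞 L → ZMod p} (D : Tow K L p (e + e) r ω h σ w₀ l₀) {δ : ℕ} (hδp : 2 * δ ≤ p)
    {l₁ l₂ : Yu p L} {Bc : ZMod p} (T : TwoL p δ e ω h σ (lu D.lg) l₁ l₂ Bc)
    (hBc : Bc ≠ 0)
    {w₁ : HeightOneSpectrum (𝓞 L)} {lw₁ : 𝓞 L → ZMod p} {π₁ : 𝓞 L}
    (E₁ : W1 (σ ^ e) l₁ w₁ lw₁ π₁) (hw10 : un K w₁ ≠ un K w₀) :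
    ∃ b : (L ≃ₐ[K] L) → ZMod p, (∀ g, b (g * σ ^ e) = b g) ∧ (∀ g, b (σ ^ e * g) = b g) ∧
      ∀ (w₂ : HeightOneSpectrum (𝓞 L)) (lw₂ : 𝓞 L → ZMod p), W2 (σ ^ e) l₂ w₂ lw₂ →
        un K w₂ ≠ un K w₀ → un K w₂ ≠ un K w₁ → (∀ g : L ≃ₐ[K] L, lw₂ (g • π₁) = b g) →
        ∀ S₀ : Finset (HeightOneSpectrum (𝓞 K)),
          (∀ v, v ∈ S₀ ↔ v = un K w₀ ∨ v = un K w₁ ∨ v = un K w₂) →
        ∃ (ι : Type) (v : ι → HeightOneSpectrum (𝓞 L))
          (χ : Fin (δ + 1) → (Ω ≃ₐ[L] Ω) → ZMod p) (x y : ι → Fin (δ + 1) → ZMod p)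
          (c' : ι → ℕ), Sev K L Ω p δ e ω S₀ v χ x y c' ∧ Shp x := by
  classical
  have hp : p.Prime := Fact.out
  have hgal := D.gal
  have hfd : FiniteDimensional K L := FiniteDimensional.right ℚ K L
  have hδp' : δ < p := by
    have := hp.pos
    omega
  have he := tow_e D
  have hcl0 : (classNumber L : ZMod p) ≠ 0 := fun h3 =>
    D.cl ((ZMod.natCast_eq_zero_iff _ _).1 h3)
  have h20 : (2 : ZMod p) ≠ 0 := by
    intro h
    have h3 : ((2 : ℕ) : ZMod p) = 0 := by exact_mod_cast h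
    exact two_ndvd D.odd ((ZMod.natCast_eq_zero_iff 2 p).1 h3)
  have hcl2 : ¬ p ∣ 2 * classNumber L := fun h1 =>
    ((Nat.Prime.dvd_mul hp).1 h1).elim (two_ndvd D.odd) D.cl
  have hω := tow_prim D
  have hω0 := tow_om D
  have hωe : ω ^ e = -1 := by
    have h3 : ω ^ e * ω ^ e = 1 := by rw [← pow_add, hω.pow_eq_one]
    rcases mul_self_eq_one_iff.1 h3 with h4 | h4
    · exact absurd (Nat.le_of_dvd he (hω.dvd_of_pow_eq_one _ h4)) (by omega)
    · exact h4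
  have hσ1 : σ ^ (e + e) = 1 := by rw [← D.sc, pow_orderOf_eq_one]
  have hττ : σ ^ e * σ ^ e = 1 := by rw [← pow_add, hσ1]
  have hτi : (σ ^ e)⁻¹ = σ ^ e := inv_eq_of_mul_eq_one_left hττ
  have hτ1 : σ ^ e ≠ 1 := by
    intro h10
    have h11 := tow_tau D
    rw [h10, orderOf_one] at h11
    exact absurd h11 (by norm_num)
  obtain ⟨tr, ml, hval, htr, hml, hcov, hsum⟩ := exists_coord D.card (tow_c D) D.hp D.sc D.om
    D.comm
  have hsum' : ∀ F : (L ≃ₐ[K] L) → ZMod p, ∑ g, F g =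
      ∑ s : ZMod p, ∑ j ∈ Finset.range (e + e), F (h ^ s.val * σ ^ j) := fun F => hsum F
  obtain ⟨hl₁, hl₂, hA, hAB⟩ := T
  have hmlτ : ml (σ ^ e) = -1 := by
    have h1 := (hval 0 e).2
    rwa [ZMod.val_zero, pow_zero, one_mul, hωe] at h1
  -- the representatives
  let γ : ZMod p × Fin e → (L ≃ₐ[K] L) := fun x => h ^ x.1.val * σ ^ (x.2 : ℕ)
  have hγ : ∀ x, γ x = h ^ x.1.val * σ ^ (x.2 : ℕ) := fun x => rfl
  have hγcov : ∀ g : L ≃ₐ[K] L, ∃ x, g = γ x ∨ g = γ x * σ ^ e := by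
    intro g
    obtain ⟨s, j, hj, hg⟩ := hcov g
    by_cases hje : j < e
    · exact ⟨(s, ⟨j, hje⟩), Or.inl hg⟩
    · refine ⟨(s, ⟨j - e, by omega⟩), Or.inr ?_⟩
      rw [hg, hγ, mul_assoc, ← pow_add]
      congr 2
      change j = j - e + e
      omega
  have hγinj : ∀ x y, (γ x)⁻¹ * γ y = 1 ∨ (γ x)⁻¹ * γ y = σ ^ e → x = y := by
    rintro ⟨s, j⟩ ⟨s', j'⟩ hxy
    rcases hxy with hxy | hxy
    · rw [inv_mul_eq_one] at hxy
      have h1 := hval s j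
      have h2 := hval s' j'
      have h3 : h ^ s.val * σ ^ (j : ℕ) = h ^ s'.val * σ ^ (j' : ℕ) := hxy
      rw [h3] at h1
      have h4 : s' = s := h2.1.symm.trans h1.1
      have h5 : ω ^ (j' : ℕ) = ω ^ (j : ℕ) := h2.2.symm.trans h1.2
      have h6 := hω.pow_inj (by omega) (by omega) h5
      rw [h4, Fin.ext h6]
    · exfalso
      rw [inv_mul_eq_iff_eq_mul] at hxy
      have h3 : h ^ s'.val * σ ^ (j' : ℕ) = h ^ s.val * σ ^ ((j : ℕ) + e) := by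
        rw [pow_add, ← mul_assoc]
        exact hxy
      have h1 := hval s ((j : ℕ) + e)
      have h2 := hval s' j'
      rw [← h3] at h1
      have h5 : ω ^ (j' : ℕ) = ω ^ ((j : ℕ) + e) := h2.2.symm.trans h1.2
      have h6 := hω.pow_inj (by omega) (by omega) h5
      omega
  -- the first prime
  obtain ⟨hw1p, hw1g, hw1s, hlw1, hlw1u, hlw1τ, hw1τ, hw1st, hπ1, hπ1τ⟩ := E₁
  -- the conjugates of the first prime
  have hcjγ : ∀ (w : HeightOneSpectrum (𝓞 L)), (∀ g : L ≃ₐ[K] L, cj g w = w → g = 1 ∨ g = σ ^ e) →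
      Function.Injective fun x => cj (γ x)⁻¹ w := by
    intro w hst x y hxy
    refine hγinj x y (hst _ ?_)
    dsimp only at hxy
    rw [cj_mul, hxy, ← cj_mul, inv_mul_cancel, cj_one]
  have hgenγ : ∀ (w : HeightOneSpectrum (𝓞 L)) (π : 𝓞 L) (n : ℕ),
      Ideal.span {π} = w.asIdeal ^ n → ∀ g : L ≃ₐ[K] L,
      Ideal.span {g • π} = (cj g⁻¹ w).asIdeal ^ n := by
    intro w π n hπ g
    have h1 := Helper77.LIN.gen_cj hπ g⁻¹
    rwa [inv_inv] at h1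
  -- the function `α`
  let α : (L ≃ₐ[K] L) → ZMod p := fun g =>
    if g = 1 ∨ g = σ ^ e then 0 else ml g * lw₁ (g⁻¹ • π₁)
  have hα : ∀ g, α (σ ^ e * g) = - α g := by
    intro g
    have h1 : (σ ^ e * g = 1 ∨ σ ^ e * g = σ ^ e) ↔ (g = 1 ∨ g = σ ^ e) := by
      rw [mul_eq_one_iff_inv_eq, hτi, mul_eq_left, or_comm, eq_comm (a := σ ^ e)]
    have h2 : (σ ^ e * g)⁻¹ • π₁ = g⁻¹ • π₁ := by
      rw [mul_inv_rev, hτi, mul_smul, hπ1τ]
    change (if σ ^ e * g = 1 ∨ σ ^ e * g = σ ^ e then (0 : ZMod p)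
      else ml (σ ^ e * g) * lw₁ ((σ ^ e * g)⁻¹ • π₁)) =
      - (if g = 1 ∨ g = σ ^ e then 0 else ml g * lw₁ (g⁻¹ • π₁))
    by_cases h3 : g = 1 ∨ g = σ ^ e
    · rw [if_pos (h1.2 h3), if_pos h3, neg_zero]
    · rw [if_neg fun h4 => h3 (h1.1 h4), if_neg h3, h2, hml, hmlτ]
      ring
  obtain ⟨b, hb1, hb2, hb3⟩ := exists_b D.odd he hω hval htr hml hsum' α hα
    (2 * ((2 : ZMod p) * classNumber L))
  refine ⟨b, hb1, hb2, fun w₂ lw₂ E₂ hw20 hw21 hlw2b S₀ hS₀ => ?_⟩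
  obtain ⟨hw2p, hw2g, hw2s, hlw2, hlw2u, hlw2τ, hw2τ, hw2st⟩ := E₂
  obtain ⟨π₂, hπ2⟩ := exists_gen w₂
  obtain ⟨π₀, hπ0⟩ := exists_gen w₀
  -- the values of the logarithms at the generators
  have hw0m : ∀ (g : L ≃ₐ[K] L) (x : 𝓞 L), x ∉ w₀.asIdeal → g • x ∉ w₀.asIdeal := by
    intro g x hx h1
    apply hx
    have h2 : x ∈ (cj g w₀).asIdeal := mem_cj.2 h1
    rwa [D.fix _ (un_cj g w₀)] at h2
  have hσl : ∀ (n : ℕ) (x : 𝓞 L), x ∉ w₀.asIdeal → l₀ (σ ^ n • x) = ω ^ n * l₀ x := by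
    intro n x hx
    induction n with
    | zero => rw [pow_zero, pow_zero, one_smul, one_mul]
    | succ n ih => rw [pow_succ', mul_smul, D.frob _ (hw0m _ _ hx), ih, pow_succ', mul_assoc]
  have hhl : ∀ (n : ℕ) (x : 𝓞 L), x ∉ w₀.asIdeal → l₀ (h ^ n • x) = l₀ x := by
    intro n x hx
    induction n with
    | zero => rw [pow_zero, one_smul]
    | succ n ih =>
      rw [pow_succ', mul_smul, D.lg.congr _ _ (hw0m _ _ (hw0m _ _ hx)) (D.hin _), ih]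
  have hπ1m : π₁ ∉ w₀.asIdeal := by
    refine gen_notMem (fun h1 => hw10 ?_) (fun h1 => hcl2 ?_) hπ1
    · rw [← h1]
    · rw [h1]
      exact dvd_zero p
  have hl0π : ∀ x, l₀ (γ x • π₁) = 0 := by
    intro x
    have h1 := hσl e π₁ hπ1m
    rw [hπ1τ, hωe, neg_one_mul] at h1
    have h2 : (2 : ZMod p) * l₀ π₁ = 0 := by
      linear_combination h1
    have h3 : l₀ π₁ = 0 := (mul_eq_zero.1 h2).resolve_left h20
    rw [hγ, mul_smul, hhl _ _ (hw0m _ _ hπ1m), hσl _ _ hπ1m, h3, mul_zero]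
  have hu : ∀ g : L ≃ₐ[K] L, g ≠ 1 → g ≠ σ ^ e →
      lw₁ ((g * σ ^ e)⁻¹ • π₁) = - lw₁ (g⁻¹ • π₁) := by
    intro g hg1 hg2
    rw [mul_inv_rev, hτi, mul_smul]
    refine hlw1τ _ ?_
    have h1 := hgenγ w₁ π₁ _ hπ1 g⁻¹
    rw [inv_inv] at h1
    refine gen_notMem (fun h2 => ?_) (fun h2 => hcl2 ?_) h1
    · exact (hw1st g h2.symm).elim hg1 hg2
    · rw [h2]
      exact dvd_zero p
  have hv : ∀ g : L ≃ₐ[K] L, b (g * σ ^ e)⁻¹ = b g⁻¹ := by
    intro g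
    rw [mul_inv_rev, hτi, hb2]
  -- the data
  let I : Type := ZMod p × Fin e
  let V : I ⊕ (I ⊕ Unit) → HeightOneSpectrum (𝓞 L) :=
    Sum.elim (fun x => cj (γ x)⁻¹ w₁) (Sum.elim (fun x => cj (γ x)⁻¹ w₂) fun _ => w₀)
  let Lf : I ⊕ (I ⊕ Unit) → 𝓞 L → ZMod p :=
    Sum.elim (fun x z => lw₁ ((γ x)⁻¹ • z)) (Sum.elim (fun x z => lw₂ ((γ x)⁻¹ • z)) fun _ => l₀)
  let Pf : I ⊕ (I ⊕ Unit) → 𝓞 L :=
    Sum.elim (fun x => γ x • π₁) (Sum.elim (fun x => γ x • π₂) fun _ => π₀)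
  let nf : I ⊕ (I ⊕ Unit) → ℕ := Sum.elim (fun _ => 2) fun _ => 1
  let kf : Fin (δ + 1) → I ⊕ (I ⊕ Unit) → ZMod p := fun a =>
    Sum.elim (fun x => ω ^ (x.2 : ℕ) * (derivative (X ^ (a : ℕ) : (ZMod p)[X])).eval x.1)
      (Sum.elim (fun x => (X ^ (a : ℕ) : (ZMod p)[X]).eval x.1)
        fun _ => Bc * (X ^ (a : ℕ) : (ZMod p)[X]).coeff δ)
  have hunV1 : ∀ x, un K (V (Sum.inl x)) = un K w₁ := fun x => un_cj (γ x)⁻¹ w₁
  have hunV2 : ∀ x, un K (V (Sum.inr (Sum.inl x))) = un K w₂ := fun x => un_cj (γ x)⁻¹ w₂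
  have hunV0 : ∀ u, un K (V (Sum.inr (Sum.inr u))) = un K w₀ := fun u => rfl
  have hVinj : Function.Injective V := by
    rintro (x | x | x) (y | y | y) hxy
    · rw [hcjγ w₁ hw1st hxy]
    · exact absurd ((hunV2 y).symm.trans ((congrArg (un K) hxy).symm.trans (hunV1 x))) hw21
    · exact absurd ((hunV1 x).symm.trans ((congrArg (un K) hxy).trans (hunV0 y))) hw10
    · exact absurd ((hunV2 x).symm.trans ((congrArg (un K) hxy).trans (hunV1 y))) hw21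
    · rw [hcjγ w₂ hw2st hxy]
    · exact absurd ((hunV2 x).symm.trans ((congrArg (un K) hxy).trans (hunV0 y))) hw20
    · exact absurd ((hunV1 y).symm.trans ((congrArg (un K) hxy).symm.trans (hunV0 x))) hw10
    · exact absurd ((hunV2 y).symm.trans ((congrArg (un K) hxy).symm.trans (hunV0 x))) hw20
    · rfl
  have hVpsg : ∀ j, Psg p (V j) := by
    rintro (x | x | x)
    · exact psg_cj hw1g _
    · exact psg_cj hw2g _
    · exact D.psg
  have hLg : ∀ j, IsLg p (V j) (Lf j) := by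
    rintro (x | x | x)
    · exact Helper77.LIN.isLg_cj hlw1 _
    · exact Helper77.LIN.isLg_cj hlw2 _
    · exact D.lg
  have hPg : ∀ j, Ideal.span {Pf j} = (V j).asIdeal ^ (nf j * classNumber L) := by
    rintro (x | x | x)
    · exact hgenγ w₁ π₁ _ hπ1 _
    · change Ideal.span {γ x • π₂} = (cj (γ x)⁻¹ w₂).asIdeal ^ (1 * classNumber L)
      rw [one_mul]
      exact hgenγ w₂ π₂ _ hπ2 _
    · change Ideal.span {π₀} = w₀.asIdeal ^ (1 * classNumber L)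
      rw [one_mul]
      exact hπ0
  have hnf : ∀ j, ¬ p ∣ nf j := by
    rintro (x | x)
    · exact two_ndvd D.odd
    · exact fun h => hp.one_lt.ne' (Nat.dvd_one.1 h)
  have hCc : ∀ j, nm (V j) - 1 = p * ((nm (V j) - 1) / p) := fun j =>
    (Nat.mul_div_cancel' (hVpsg j).2).symm
  have hcov' : ∀ (w : HeightOneSpectrum (𝓞 L)), cj (σ ^ e) w = w → ∀ g : L ≃ₐ[K] L,
      ∃ x, cj (γ x)⁻¹ w = cj g w := by
    intro w hw g
    obtain ⟨x, hx | hx⟩ := hγcov g⁻¹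
    · exact ⟨x, by rw [← hx, inv_inv]⟩
    · refine ⟨x, ?_⟩
      have h1 : g = σ ^ e * (γ x)⁻¹ := by
        rw [← inv_inv g, hx, mul_inv_rev, hτi]
      rw [h1, cj_mul, hw]
  have hVT : ∀ P, P ∈ up L S₀ ↔ ∃ j, V j = P := by
    intro P
    rw [mem_up, hS₀]
    constructor
    · rintro (h1 | h1 | h1)
      · exact ⟨Sum.inr (Sum.inr ()), (D.fix P h1).symm⟩
      · obtain ⟨g, hg⟩ := exists_cj h1.symm
        obtain ⟨x, hx⟩ := hcov' w₁ hw1τ g
        exact ⟨Sum.inl x, hx.trans hg.symm⟩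
      · obtain ⟨g, hg⟩ := exists_cj h1.symm
        obtain ⟨x, hx⟩ := hcov' w₂ hw2τ g
        exact ⟨Sum.inr (Sum.inl x), hx.trans hg.symm⟩
    · rintro ⟨x | x | x, rfl⟩
      · exact Or.inr (Or.inl (hunV1 x))
      · exact Or.inr (Or.inr (hunV2 x))
      · exact Or.inl rfl
  -- sums over all primes
  have hval1 : ∀ (g : L ≃ₐ[K] L) (l : Yu p L) (lw : 𝓞 L → ZMod p),
      (∀ ε : (𝓞 L)ˣ, lw ε = l.1 ε) → ∀ ε : (𝓞 L)ˣ,
      (ya p g l).1 ε = lw (g⁻¹ • (ε : 𝓞 L)) := by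
    intro g l lw hlw ε
    rw [ya_apply, ← ua_coe, hlw]
  have hsumε : ∀ (f₁ f₂ : ZMod p × Fin e → ZMod p) (f₀ : ZMod p) (ε : (𝓞 L)ˣ),
      (∑ x : ZMod p × Fin e, f₁ x • ya p (h ^ x.1.val * σ ^ (x.2 : ℕ)) l₁ +
        ∑ x : ZMod p × Fin e, f₂ x • ya p (h ^ x.1.val * σ ^ (x.2 : ℕ)) l₂ +
          f₀ • lu D.lg).1 ε =
      ∑ j, Sum.elim f₁ (Sum.elim f₂ fun _ => f₀) j * Lf j ε := by
    intro f₁ f₂ f₀ ε
    rw [sum3, Submodule.coe_add, Submodule.coe_add, Submodule.coe_sum, Submodule.coe_sum,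
      Pi.add_apply, Pi.add_apply, Finset.sum_apply, Finset.sum_apply]
    congr 1
    congr 1
    · refine Finset.sum_congr rfl fun x _ => ?_
      change f₁ x * (ya p (γ x) l₁).1 ε = f₁ x * lw₁ ((γ x)⁻¹ • (ε : 𝓞 L))
      rw [hval1 (γ x) l₁ lw₁ hlw1u]
    · refine Finset.sum_congr rfl fun x _ => ?_
      change f₂ x * (ya p (γ x) l₂).1 ε = f₂ x * lw₂ ((γ x)⁻¹ • (ε : 𝓞 L))
      rw [hval1 (γ x) l₂ lw₂ hlw2u]
  have hku : ∀ a, ∀ ε : (𝓞 L)ˣ, ∑ j, kf a j * Lf j ε = 0 := by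
    intro a ε
    have h1 := hA (X ^ (a : ℕ)) ((natDegree_X_pow_le _).trans (by omega))
    have h2 := hsumε
      (fun x => ω ^ (x.2 : ℕ) * (derivative (X ^ (a : ℕ) : (ZMod p)[X])).eval x.1)
      (fun x => (X ^ (a : ℕ) : (ZMod p)[X]).eval x.1)
      (Bc * (X ^ (a : ℕ) : (ZMod p)[X]).coeff δ) ε
    rw [h1] at h2
    exact h2.symm
  have hks : ∀ z : I ⊕ (I ⊕ Unit) → ZMod p, (∀ ε : (𝓞 L)ˣ, ∑ j, z j * Lf j ε = 0) →
      ∃ e : Fin (δ + 1) → ZMod p, z = ∑ a, e a • kf a := by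
    intro z hz
    have h1 : ∑ x : ZMod p × Fin e, z (Sum.inl x) • ya p (h ^ x.1.val * σ ^ (x.2 : ℕ)) l₁ +
        ∑ x : ZMod p × Fin e, z (Sum.inr (Sum.inl x)) •
          ya p (h ^ x.1.val * σ ^ (x.2 : ℕ)) l₂ +
          z (Sum.inr (Sum.inr ())) • lu D.lg = 0 := by
      apply Subtype.ext
      funext ε
      refine (hsumε (fun x => z (Sum.inl x)) (fun x => z (Sum.inr (Sum.inl x)))
        (z (Sum.inr (Sum.inr ()))) ε).trans ?_
      refine Eq.trans (Finset.sum_congr rfl fun j _ => ?_) (hz ε)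
      congr 1
      rcases j with j | j | j
      · rfl
      · rfl
      · rfl
    obtain ⟨g, hg, hg1, hg2, hg3⟩ := hAB (fun x => z (Sum.inl x))
      (fun x => z (Sum.inr (Sum.inl x))) (z (Sum.inr (Sum.inr ()))) h1
    have hg' : g = ∑ a : Fin (δ + 1), C (g.coeff a) * X ^ (a : ℕ) := by
      conv_lhs => rw [g.as_sum_range_C_mul_X_pow' (by omega : g.natDegree < δ + 1)]
      exact (Fin.sum_univ_eq_sum_range (fun i => C (g.coeff i) * X ^ i) (δ + 1)).symm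
    refine ⟨fun a => g.coeff a, ?_⟩
    funext j
    rw [Finset.sum_apply]
    simp only [Pi.smul_apply, smul_eq_mul]
    rcases j with x | x | x
    · refine (hg1 x).trans ?_
      change _ = ∑ a : Fin (δ + 1), g.coeff a *
        (ω ^ (x.2 : ℕ) * (derivative (X ^ (a : ℕ) : (ZMod p)[X])).eval x.1)
      conv_lhs => rw [hg']
      rw [derivative_sum, eval_finsetSum, Finset.mul_sum]
      refine Finset.sum_congr rfl fun a _ => ?_
      rw [derivative_C_mul, eval_mul, eval_C]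
      ring
    · refine (hg2 x).trans ?_
      change _ = ∑ a : Fin (δ + 1), g.coeff a * (X ^ (a : ℕ) : (ZMod p)[X]).eval x.1
      conv_lhs => rw [hg']
      rw [eval_finsetSum]
      refine Finset.sum_congr rfl fun a _ => ?_
      rw [eval_mul, eval_C]
    · refine hg3.trans ?_
      change _ = ∑ a : Fin (δ + 1), g.coeff a * (Bc * (X ^ (a : ℕ) : (ZMod p)[X]).coeff δ)
      conv_lhs => rw [hg']
      rw [finsetSum_coeff, Finset.mul_sum]
      refine Finset.sum_congr rfl fun a _ => ?_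
      rw [coeff_C_mul]
      ring
  have hki : LinearIndependent (ZMod p) kf := by
    rw [Fintype.linearIndependent_iff]
    intro d hd a
    refine congrFun (Helper77.LIN.mono_indep hδp' d fun s => ?_) a
    have h1 := congrFun hd (Sum.inr (Sum.inl (s, ⟨0, he⟩)))
    rw [Finset.sum_apply] at h1
    refine Eq.trans (Finset.sum_congr rfl fun a _ => ?_) h1
    change d a * s ^ (a : ℕ) = d a * (X ^ (a : ℕ) : (ZMod p)[X]).eval s
    rw [eval_pow, eval_X]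
  obtain ⟨χ, hχ⟩ := pd0_of_logN (Ω := Ω) D.odd D.cl hVinj hVpsg hCc hLg hnf hPg hku hks hki hVT
  have hsh : Shp fun (j : I ⊕ (I ⊕ Unit)) a => kf a j := by
    rintro (x | x | x)
    · refine ⟨ω ^ (x.2 : ℕ), pow_ne_zero _ hω0, Or.inr (Or.inl ⟨x.1, fun a => ?_⟩)⟩
      change ω ^ (x.2 : ℕ) * (derivative (X ^ (a : ℕ) : (ZMod p)[X])).eval x.1 = _
      rw [derivative_X_pow, eval_mul, eval_C, eval_pow, eval_X, dg, Nat.descFactorial_one]
    · refine ⟨1, one_ne_zero, Or.inl ⟨x.1, fun a => ?_⟩⟩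
      change (X ^ (a : ℕ) : (ZMod p)[X]).eval x.1 = _
      rw [eval_pow, eval_X, dg, Nat.descFactorial_zero, Nat.cast_one, one_mul, Nat.sub_zero,
        one_mul]
    · refine ⟨Bc, hBc, Or.inr (Or.inr fun a => ?_)⟩
      change Bc * (X ^ (a : ℕ) : (ZMod p)[X]).coeff δ = _
      rw [coeff_X_pow]
      by_cases ha : a = Fin.last δ
      · rw [if_pos ha, if_pos (by rw [ha]; rfl), mul_one]
      · rw [if_neg ha, if_neg (fun h1 => ha (Fin.ext h1.symm)), mul_zero]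
  refine ⟨I ⊕ (I ⊕ Unit), V, χ, _, _, _, ⟨hχ, fun w hw => (hVT w).1 hw, ?_, ?_⟩, hsh⟩
  · intro t j hj
    refine ⟨Sum.inl (t, ⟨j, hj⟩), fun a => ?_, fun a => ?_, ?_⟩
    · change ω ^ j * (derivative (X ^ (a : ℕ) : (ZMod p)[X])).eval t = _
      rw [derivative_X_pow, eval_mul, eval_C, eval_pow, eval_X, dg, Nat.descFactorial_one]
    · -- the Frobenius vector
      change (∑ k ∈ Finset.univ.erase (Sum.inl (t, (⟨j, hj⟩ : Fin e))),
        kf a k * Lf k (γ (t, ⟨j, hj⟩) • π₁)) /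
        (((2 : ℕ) : ZMod p) * (classNumber L : ZMod p)) = _
      rw [div_eq_iff (by
        rw [Nat.cast_ofNat]
        exact mul_ne_zero h20 hcl0), sum3_erase]
      have hlast : kf a (Sum.inr (Sum.inr ())) * Lf (Sum.inr (Sum.inr ()))
          (γ (t, ⟨j, hj⟩) • π₁) = 0 := by
        change _ * l₀ (γ (t, ⟨j, hj⟩) • π₁) = 0
        rw [hl0π, mul_zero]
      rw [hlast, add_zero]
      have h1 := sum_half D.odd he hω hσ1 hval htr hml hsum' (fun g => lw₁ (g⁻¹ • π₁))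
        (fun g => b g⁻¹) hu hv (fun s => (X ^ (a : ℕ) : (ZMod p)[X]).eval s)
        (fun s => (derivative (X ^ (a : ℕ) : (ZMod p)[X])).eval s) t ⟨j, hj⟩
      have h2 := hb3 (X ^ (a : ℕ)) ((natDegree_X_pow_le _).trans (by omega)) (γ (t, ⟨j, hj⟩))
      have h3 := h1.trans h2
      have h4 : ∑ y ∈ Finset.univ.erase (t, (⟨j, hj⟩ : Fin e)),
          kf a (Sum.inl y) * Lf (Sum.inl y) (γ (t, ⟨j, hj⟩) • π₁) =
          ∑ x ∈ (Finset.univ : Finset (ZMod p × Fin e)).erase (t, ⟨j, hj⟩),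
            (ω ^ (x.2 : ℕ) * (derivative (X ^ (a : ℕ) : (ZMod p)[X])).eval x.1) *
            lw₁ (((h ^ t.val * σ ^ j)⁻¹ * (h ^ x.1.val * σ ^ (x.2 : ℕ)))⁻¹ • π₁) := by
        refine Finset.sum_congr rfl fun x _ => ?_
        rw [mul_inv_rev, inv_inv, mul_smul]
        rfl
      have h5 : ∑ y : I, kf a (Sum.inr (Sum.inl y)) *
            Lf (Sum.inr (Sum.inl y)) (γ (t, ⟨j, hj⟩) • π₁) =
          ∑ x : ZMod p × Fin e, (X ^ (a : ℕ) : (ZMod p)[X]).eval x.1 *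
            b (((h ^ t.val * σ ^ j)⁻¹ * (h ^ x.1.val * σ ^ (x.2 : ℕ)))⁻¹) := by
        refine Finset.sum_congr rfl fun x _ => ?_
        rw [← hlw2b, mul_inv_rev, inv_inv, mul_smul]
        rfl
      have h6 : ∀ k, (derivative^[2 * k] (X ^ (a : ℕ) : (ZMod p)[X])).eval t =
          dg (2 * k) (a : ℕ) t := by
        intro k
        rw [iterate_derivative_X_pow_eq_natCast_mul, eval_mul, eval_natCast, eval_pow, eval_X, dg]
      have h7 : tr (γ (t, ⟨j, hj⟩)) = t ∧ ml (γ (t, ⟨j, hj⟩)) = ω ^ j := hval t j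
      rw [h7.1, h7.2] at h3
      rw [h4, h5]
      apply mul_left_cancel₀ h20
      refine h3.trans ?_
      rw [Nat.cast_ofNat, mul_assoc, mul_comm (Finset.sum _ _)]
      congr 2
      refine Finset.sum_congr rfl fun k _ => ?_
      rw [h6, ← pow_mul, mul_comm j]
    · -- the norm
      change (((nm (cj (γ (t, ⟨j, hj⟩))⁻¹ w₁) - 1) / p : ℕ) : ZMod p) = 0
      rw [ZMod.natCast_eq_zero_iff, Helper77.LIN.nm_cj]
      exact Nat.dvd_div_of_mul_dvd (by rwa [← pow_two])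
  · intro t
    refine ⟨Sum.inr (Sum.inl (t, ⟨0, he⟩)), fun a => ?_, ?_⟩
    · change (X ^ (a : ℕ) : (ZMod p)[X]).eval t = _
      rw [eval_pow, eval_X, dg, Nat.descFactorial_zero, Nat.cast_one, one_mul, Nat.sub_zero]
    · change (((nm (cj (γ (t, ⟨0, he⟩))⁻¹ w₂) - 1) / p : ℕ) : ZMod p) ≠ 0
      rw [Ne, ZMod.natCast_eq_zero_iff, Helper77.LIN.nm_cj]
      intro h1
      apply hw2s
      obtain ⟨m, hm⟩ := h1
      refine ⟨m, ?_⟩
      rw [pow_two, mul_assoc, ← hm, Nat.mul_div_cancel' hw2g.2]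

end sev

end Pool.Agent.Helper77.EQMU
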