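import Mathlib
import Pool.Agent.Helper45.EQM.Sv
import Pool.Agent.Helper77.EQMU.Sh

/-!
# Project EQMU: the final data over a larger field, with the form of the inertia vectors
-/

set_option autoImplicit false
set_option linter.unusedSectionVars false

open NumberField IsDedekindDomain Module

open scoped Pointwise nonZeroDivisors

namespace Pool.Agent.Helper77.EQMU

open Helper45.TC Helper84.TC Helper84.UN
open Helper84.LIN (Inv cjc cjm)
open Helper91.LIN (PD0)
open Pool.Agent.Helper90.EQ (Sev dg un_un)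
open Helper45.EQM

section sev

variable {K L N Ω : Type} [Field K] [NumberField K] [Field L] [NumberField L] [Field N]
  [NumberField N] [Field Ω] [Algebra K L] [Algebra L N] [Algebra K N] [IsScalarTower K L N]
  [Algebra L Ω] [Algebra N Ω] [IsScalarTower L N Ω] [IsGalois L Ω] [IsGalois N Ω]
  {p : ℕ} [Fact p.Prime] {δ e : ℕ} {ω : ZMod p} {S₀ : Finset (HeightOneSpectrum (𝓞 K))}
  {ι : Type} {v : ι → HeightOneSpectrum (𝓞 L)} {χ : Fin (δ + 1) → (Ω ≃ₐ[L] Ω) → ZMod p}
  {x y : ι → Fin (δ + 1) → ZMod p} {c : ι → ℕ}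

/-- the data over a Galois extension of degree prime to `p`, if the decomposition groups of the primes
above `S₀` are trivial and all characters are invariant -/
theorem sev_up' [IsGalois L N] (hm : ¬ p ∣ finrank L N) (hδ : 1 ≤ δ) (hω : 2 * e ≤ orderOf ω)
    (h : Sev K L Ω p δ e ω S₀ v χ x y c) (hx : Shp x)
    (hst : ∀ P : HeightOneSpectrum (𝓞 N), un K P ∈ S₀ → ∀ d : N ≃ₐ[L] N, cj d P = P → d = 1)
    (hG : ∀ ψ ∈ H N Ω p (up N S₀), Inv L ψ) :
    ∃ (ι' : Type) (v' : ι' → HeightOneSpectrum (𝓞 N)) (x' y' : ι' → Fin (δ + 1) → ZMod p)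
      (c' : ι' → ℕ), Sev K N Ω p δ e ω S₀ v' (fun a g => χ a (rs L g)) x' y' c' ∧ Shp x' := by
  let ι' : Type := {q : ι × HeightOneSpectrum (𝓞 N) // un L q.2 = v q.1 ∧ un K q.2 ∈ S₀}
  have hex : ∀ i : ι, x i ≠ 0 → ∃ j : ι', j.1.1 = i := by
    intro i hi
    obtain ⟨P, hP⟩ := exists_un (F := N) (v i)
    have h1 := mem_up.1 (sev_mem h hi)
    exact ⟨⟨(i, P), hP, by rw [← un_un (F := L), hP]; exact h1⟩, rfl⟩
  refine ⟨ι', fun q => q.1.2, x ∘ fun q => q.1.1, y ∘ fun q => q.1.1,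
    c ∘ fun q => q.1.1, ⟨?_, ?_, ?_, ?_⟩, fun q => hx q.1.1⟩
  · rw [← up_up (L := L)]
    refine pd_res hm (pd_comp h.pd _) (fun j => j.2.1) (fun j => ?_) ?_
    · rw [nm_eq_of_stab (L := L) j.1.2 (hst _ j.2.2)]
      exact congrArg nm j.2.1
    · rw [up_up]
      exact hG
  · intro w hw
    have h1 := mem_up.1 hw
    obtain ⟨j, hj⟩ := h.all (un L w) (mem_up.2 (by rw [un_un]; exact h1))
    exact ⟨⟨(j, w), hj.symm, h1⟩, rfl⟩
  · intro t j hj
    obtain ⟨i, h1, h2, h3⟩ := h.first t j hj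
    have hω0 : ω ≠ 0 := by
      rintro rfl
      have h4 : 0 < orderOf (0 : ZMod p) := by omega
      have h5 := pow_orderOf_eq_one (0 : ZMod p)
      rw [zero_pow h4.ne'] at h5
      exact zero_ne_one h5
    obtain ⟨q, hq⟩ := hex i (fun h4 => by
      have h5 := h1 ⟨1, by omega⟩
      rw [h4, Pi.zero_apply, eq_comm, mul_eq_zero] at h5
      rcases h5 with h5 | h5
      · exact pow_ne_zero _ hω0 h5
      · rw [dg] at h5
        simp at h5)
    refine ⟨q, fun a => ?_, fun a => ?_, ?_⟩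
    · change x q.1.1 a = _
      rw [hq, h1]
    · change y q.1.1 a = _
      rw [hq, h2]
    · change (c q.1.1 : ZMod p) = 0
      rw [hq, h3]
  · intro t
    obtain ⟨i, h1, h2⟩ := h.last t
    obtain ⟨q, hq⟩ := hex i (fun h4 => by
      have h5 := h1 0
      rw [h4, Pi.zero_apply, dg] at h5
      simp at h5)
    refine ⟨q, fun a => ?_, ?_⟩
    · change x q.1.1 a = _
      rw [hq, h1]
    · change (c q.1.1 : ZMod p) ≠ 0
      rw [hq]
      exact h2

end sev

end Pool.Agent.Helper77.EQMU
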