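import Mathlib
import Pool.Agent.Helper84.EQM.W
import Pool.Agent.Helper77.EQMU.Sh

/-!
# Project EQMU: the second and the third prime, with the form of the inertia vectors
-/

set_option autoImplicit false
set_option linter.unusedSectionVars false

open NumberField IsDedekindDomain Module

open scoped Pointwise nonZeroDivisors

namespace Pool.Agent.Helper77.EQMU

open Helper45.TC
open Helper84.TC (Fx rs lf un up cj mem_un mem_cj un_cj cj_mul cj_one finite_preimage nm_un_eq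
  exists_cj mem_up exists_un od_up)
open Helper91.LIN (ua Yu ya ya_apply ya_one ya_mul ya_pow ua_mul ua_one ua_coe lu)
open Helper84.LIN (rn rn_smul rn_apply)
open Pool.Agent.Helper90.EQ (Psg LayG Tow Sev)
open Pool.Agent.Helper84.EQ (rsL rsL_apply rsL_smul rsL_inj ua_rsL ya_rsL iu nu ry ry_ya rnF_apply
  exists_rsL pow_compat un_un)
open Pool.Agent.Helper91.EQM (exists_wG TwoL W1 W2)
open Pool.Agent.Helper84.EQM
open Pool.Agent.Helper91.EQ (oap_pow two_ndvd tow_e tow_tau)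
open Helper77.TC (exists_gen gen_ne od_gen od_gen')

section cmp

variable {K F M L N Ω : Type} [Field K] [NumberField K] [Field F] [NumberField F] [Field M]
  [NumberField M] [Field L] [NumberField L] [Field N] [NumberField N] [Field Ω] [Algebra K F]
  [Algebra K M] [Algebra K L] [Algebra K N] [Algebra F M] [Algebra F L] [Algebra F N]
  [Algebra M N] [Algebra L N] [Algebra K Ω] [Algebra F Ω] [Algebra M Ω] [Algebra L Ω]
  [Algebra N Ω] {p : ℕ} [hp : Fact p.Prime]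

/-- The second and the third prime, with the form of the inertia vectors. -/
theorem exists_W' [IsAlgClosed Ω] (C : Cmp K F M L N Ω p) {r e : ℕ} {ω : ZMod p}
    {h σ : L ≃ₐ[K] L} {w₀ : HeightOneSpectrum (𝓞 L)} {l₀ : 𝓞 L → ZMod p}
    (D : Tow K L p (e + e) r ω h σ w₀ l₀) (hM : ¬ (p : ℤ) ∣ discr M)
    {s : M ≃ₐ[K] M} {s₀ : F ≃ₐ[K] F}
    (hs : ∀ x : F, s (algebraMap F M x) = algebraMap F M (s₀ x))
    (hσ : ∀ x : F, σ (algebraMap F L x) = algebraMap F L (s₀ x)) (ho : orderOf s = e + e)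
    (ho₀ : orderOf s₀ = e + e) {δ : ℕ} (hδ : 1 ≤ δ) (hδe : e + e ∣ δ - 1) (hδp : 2 * δ ≤ p)
    (m₁ : Yu p M) {B : Set (HeightOneSpectrum (𝓞 K))} (hB : B.Finite) :
    ∃ (P₁ P₂ : HeightOneSpectrum (𝓞 M)) (l₁ l₂ : 𝓞 M → ZMod p) (hl₁ : IsLg p P₁ l₁)
      (hl₂ : IsLg p P₂ l₂) (n₁ n₂ : Yu p M) (S₀ : Finset (HeightOneSpectrum (𝓞 K))) (ι : Type)
      (v : ι → HeightOneSpectrum (𝓞 L)) (χ : Fin (δ + 1) → (Ω ≃ₐ[L] Ω) → ZMod p)
      (x y : ι → Fin (δ + 1) → ZMod p) (c : ι → ℕ),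
      (∀ v, v ∈ S₀ ↔ v = un K w₀ ∨ v = un K P₁ ∨ v = un K P₂) ∧ S₀.card = 3 ∧
      un K P₁ ≠ un K w₀ ∧ un K P₂ ≠ un K w₀ ∧ un K P₂ ≠ un K P₁ ∧
      un K P₁ ∉ B ∧ un K P₂ ∉ B ∧ (nm (un K P₁)).Prime ∧ (nm (un K P₂)).Prime ∧
      Psg p P₁ ∧ Psg p P₂ ∧
      (∀ x : 𝓞 M, x ∉ P₁.asIdeal → l₁ ((s ^ e) • x) = - l₁ x) ∧
      (∀ x : 𝓞 M, x ∉ P₂.asIdeal → l₂ ((s ^ e) • x) = l₂ x) ∧
      cj (s ^ e) P₁ = P₁ ∧ cj (s ^ e) P₂ = P₂ ∧
      (∀ g : M ≃ₐ[K] M, cj g P₁ = P₁ → g = 1 ∨ g = s ^ e) ∧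
      (∀ g : M ≃ₐ[K] M, cj g P₂ = P₂ → g = 1 ∨ g = s ^ e) ∧
      (∀ d : M ≃ₐ[F] M, ya p d n₁ = n₁) ∧ (∀ d : M ≃ₐ[F] M, ya p d n₂ = n₂) ∧
      lu hl₁ = n₁ + (2 : ZMod p)⁻¹ • (m₁ - ya p (s ^ e) m₁) ∧
      lu hl₂ = n₂ + (2 : ZMod p)⁻¹ • (m₁ + ya p (s ^ e) m₁) ∧
      Sev K L Ω p δ e ω S₀ v χ x y c ∧ Shp x := by
  classical
  have hpp : p.Prime := Fact.out
  have := C.tKFM
  have := C.tKFL
  have := C.tKMN
  have := C.tKLN
  have := C.tFMN
  have := C.tFLN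
  have := C.tLNO
  have := C.tKLO
  have := C.tKNO
  have := C.gKM
  have := C.gKL
  have := C.gKN
  have := C.gKF
  have := C.gKO
  have hNO : IsGalois N Ω := IsGalois.tower_top_of_isGalois K N Ω
  have hLO : IsGalois L Ω := IsGalois.tower_top_of_isGalois K L Ω
  have hp2 := D.odd
  have he := tow_e D
  have hδp' : δ < p := by
    have := hpp.pos
    omega
  -- the automorphisms of order two
  have hoe : orderOf (s ^ e) = 2 := by
    rw [orderOf_pow_of_dvd he.ne' (by rw [ho]; exact ⟨2, by omega⟩), ho]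
    exact Nat.div_eq_of_eq_mul_left he (by omega)
  have hoe₀ : orderOf (s₀ ^ e) = 2 := by
    rw [orderOf_pow_of_dvd he.ne' (by rw [ho₀]; exact ⟨2, by omega⟩), ho₀]
    exact Nat.div_eq_of_eq_mul_left he (by omega)
  have hoσ : orderOf (σ ^ e) = 2 := tow_tau D
  have hne : ∀ {G : Type} [Group G] {g : G}, orderOf g = 2 → g ≠ 1 := by
    intro G _ g hg h1
    rw [h1, orderOf_one] at hg
    exact absurd hg (by norm_num)
  obtain ⟨σN, hσM, hσL⟩ := C.exists_lift hs hσ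
  have hτM := pow_compat hσM e
  have hτL := pow_compat hσL e
  have hoN : orderOf (σN ^ e) = 2 := C.orderOf_eq hτM hτL hoe hoσ
  have hτN2 : (σN ^ e) ^ 2 = 1 := by rw [← hoN, pow_orderOf_eq_one]
  -- the homomorphisms on the units
  obtain ⟨l₁, l₂, Bc, T, hBc⟩ := exists_twoL' D hδ hδe hδp'
  obtain ⟨l₁', hl1L, hl1τ, n₁, hn₁, hl1M⟩ := exists_lN C hp2 hM hτM hτL hτN2 (ω := -1) (by ring) l₁
    (fun ε => by rw [T.par1, neg_one_mul]) m₁
  obtain ⟨l₂', hl2L, hl2τ, n₂, hn₂, hl2M⟩ := exists_lN C hp2 hM hτM hτL hτN2 (ω := 1) (by ring) l₂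
    (fun ε => by rw [T.par2, one_mul]) m₁
  -- the second prime
  obtain ⟨w₁', lw₁', hB1, E₁', hsq1⟩ := exists_odd (K := K) Ω hp2 C.disc hoN l₁' hl1τ
    (hB.union (Set.finite_singleton (un K w₀)))
  obtain ⟨hnm1L, E1L⟩ := pr2_down E₁' hτL (hne hoσ)
  obtain ⟨hnm1M, E1M⟩ := pr2_down E₁' hτM (hne hoe)
  rw [hl1L] at E1L
  have h10 : un K w₁' ≠ un K w₀ := fun h1 => hB1 (Or.inr h1)
  have h1L : un K (un L w₁') = un K w₁' := un_un (F := L) w₁'
  have h1M : un K (un M w₁') = un K w₁' := un_un (F := M) w₁'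
  -- the generator
  obtain ⟨π, hπ⟩ := exists_gen (un L w₁')
  have hττ : σ ^ e * σ ^ e = 1 := by
    rw [← pow_two, ← hoσ, pow_orderOf_eq_one]
  have hπ1 : Ideal.span {π * (σ ^ e • π)} = (un L w₁').asIdeal ^ (2 * classNumber L) := by
    have h12 := Helper77.LIN.gen_cj hπ (σ ^ e)⁻¹
    rw [inv_inv] at h12
    have h13 : cj (σ ^ e)⁻¹ (un L w₁') = un L w₁' := by
      conv_lhs => rw [← E1L.fix]
      rw [← cj_mul, mul_inv_cancel, cj_one]
    rw [h13] at h12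
    rw [← Ideal.span_singleton_mul_span_singleton, h12, hπ, two_mul, pow_add]
  have hπ2 : σ ^ e • (π * (σ ^ e • π)) = π * (σ ^ e • π) := by
    rw [smul_mul', ← mul_smul, hττ, one_smul, mul_comm]
  have W₁ : W1 (σ ^ e) l₁ (un L w₁') (lw₁' ∘ algebraMap (𝓞 L) (𝓞 N)) (π * (σ ^ e • π)) :=
    { pr := E1L.pr
      psg := E1L.psg
      sq := by rw [← hnm1L]; exact hsq1
      lg := E1L.lg
      un := E1L.uni
      par := fun x hx => by rw [E1L.par x hx, neg_one_mul]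
      fix := E1L.fix
      st := E1L.st
      gen := hπ1
      gfix := hπ2 }
  obtain ⟨b, hb1, hb2, hsev⟩ := exists_sev_of' Ω D hδp T hBc W₁ (by rw [h1L]; exact h10)
  -- the decomposition groups over `L`
  have hin : ∀ Q : HeightOneSpectrum (𝓞 N), un K Q = un K (un L w₁') →
      ∀ d : N ≃ₐ[L] N, cj d Q = Q → d = 1 := by
    intro Q hQ d hd
    refine Helper45.EQM.st_of C (v := un M w₁') (fun g hg hgF => ?_) (P := Q)
      (by rw [hQ, h1L, h1M]) d hd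
    rcases E1M.st g hg with h2 | h2
    · exact h2
    · exfalso
      apply hne hoe₀
      ext x
      apply (algebraMap F M).injective
      rw [← pow_compat hs, ← h2]
      exact hgF x
  -- the third prime
  obtain ⟨w₂', lw₂', hB2, E₂', hsq2, hval⟩ := exists_third (K := K) Ω hp2 D.cl C.disc hτL hoN
    E1L.st hin hπ1 hπ2 b hb1 hb2 l₂' (fun ε => by rw [hl2τ, one_mul])
    (hB.union ((Set.finite_singleton (un K w₀)).union (Set.finite_singleton (un K w₁'))))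
  obtain ⟨hnm2L, E2L⟩ := pr2_down E₂' hτL (hne hoσ)
  obtain ⟨hnm2M, E2M⟩ := pr2_down E₂' hτM (hne hoe)
  rw [hl2L] at E2L
  have h20 : un K w₂' ≠ un K w₀ := fun h1 => hB2 (Or.inr (Or.inl h1))
  have h21 : un K w₂' ≠ un K w₁' := fun h1 => hB2 (Or.inr (Or.inr h1))
  have h2L : un K (un L w₂') = un K w₂' := un_un (F := L) w₂'
  have h2M : un K (un M w₂') = un K w₂' := un_un (F := M) w₂'
  have W₂ : W2 (σ ^ e) l₂ (un L w₂') (lw₂' ∘ algebraMap (𝓞 L) (𝓞 N)) :=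
    { pr := E2L.pr
      psg := E2L.psg
      sq := by rw [← hnm2L]; exact hsq2
      lg := E2L.lg
      un := E2L.uni
      par := fun x hx => by rw [E2L.par x hx, one_mul]
      fix := E2L.fix
      st := E2L.st }
  set S₀ : Finset (HeightOneSpectrum (𝓞 K)) := {un K w₀, un K w₁', un K w₂'} with hS₀
  have hmS : ∀ v, v ∈ S₀ ↔ v = un K w₀ ∨ v = un K w₁' ∨ v = un K w₂' := by
    intro v
    rw [hS₀, Finset.mem_insert, Finset.mem_insert, Finset.mem_singleton]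
  obtain ⟨ι, v, χ, x, y, c, hS, hx⟩ := hsev (un L w₂') _ W₂ (by rw [h2L]; exact h20)
    (by rw [h2L, h1L]; exact h21) hval S₀ (fun v => by rw [hmS, h1L, h2L])
  refine ⟨un M w₁', un M w₂', _, _, E1M.lg, E2M.lg, n₁, n₂, S₀, ι, v, χ, x, y, c,
    fun v => by rw [hmS, h1M, h2M], ?_, by rw [h1M]; exact h10, by rw [h2M]; exact h20,
    by rw [h2M, h1M]; exact h21, ?_, ?_, E1M.pr, E2M.pr, E1M.psg, E2M.psg,
    fun x hx => by rw [E1M.par x hx, neg_one_mul], fun x hx => by rw [E2M.par x hx, one_mul],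
    E1M.fix, E2M.fix, E1M.st, E2M.st, hn₁, hn₂, ?_, ?_, hS, hx⟩
  · rw [hS₀, Finset.card_insert_of_notMem, Finset.card_insert_of_notMem, Finset.card_singleton]
    · rw [Finset.mem_singleton]
      exact h21.symm
    · rw [Finset.mem_insert, Finset.mem_singleton, not_or]
      exact ⟨h10.symm, h20.symm⟩
  · rw [h1M]
    exact fun h1 => hB1 (Or.inl h1)
  · rw [h2M]
    exact fun h1 => hB2 (Or.inl h1)
  · have h1 : lu E1M.lg = ry p M N l₁' := by
      apply Subtype.ext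
      funext ε
      exact E1M.uni ε
    have h2 : (-1 : ZMod p) • ya p (s ^ e) m₁ = - ya p (s ^ e) m₁ := by
      apply Subtype.ext
      funext ε
      exact neg_one_mul _
    rw [h1, hl1M, h2, ← sub_eq_add_neg]
  · have h1 : lu E2M.lg = ry p M N l₂' := by
      apply Subtype.ext
      funext ε
      exact E2M.uni ε
    rw [h1, hl2M, one_smul]

end cmp

end Pool.Agent.Helper77.EQMU
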