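import Mathlib
import Pool.Agent.Helper45.EQM.Bot
import Pool.Agent.Helper45.EQM.St
import Pool.Agent.Helper84.EQM.First
import Pool.Agent.Helper84.EQM.C
import Pool.Agent.Helper77.EQMU.W
import Pool.Agent.Helper77.EQMU.Sv
import Pool.Agent.Helper42.EQM.G
import Pool.Agent.Helper6.EQM.H

/-!
# Project EQMU: the data of the primes, assembled
-/

set_option autoImplicit false
set_option linter.unusedSectionVars false

open NumberField IsDedekindDomain Module

open scoped Pointwise nonZeroDivisors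

namespace Pool.Agent.Helper77.EQMU

open Helper45.TC
open Helper91.LIN (ua Yu ya xa lu ya_one ya_mul)
open Helper84.TC (Fx rs lf un up cj mem_up)
open Helper84.EQM (Cmp av ei ei_apply ya_av av_ei)
open Helper84.EQ (rsL rsL_apply rsL_inj exists_rsL pow_compat)
open Helper84.LIN (cjc rn rn_apply)
open Pool.Agent.Helper90.EQ (Psg Sev LayG Tow un_un)
open Helper45.EQM

/-- the existence of the data of the primes over `L` and `N = M L` -/
def DataU (K F M : Type) [Field K] [NumberField K] [Field F] [NumberField F] [Field M]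
    [NumberField M] [Algebra K F] [Algebra K M] [Algebra F M] [Algebra F (AlgebraicClosure K)]
    [Algebra M (AlgebraicClosure K)] [IsGalois F (AlgebraicClosure K)] (p δ e c₀ : ℕ) : Prop :=
  ∀ B' : Set (HeightOneSpectrum (𝓞 K)), B'.Finite →
    ∃ (ω : ZMod p) (v₀ : HeightOneSpectrum (𝓞 F))
      (χ₀ : (AlgebraicClosure K ≃ₐ[F] AlgebraicClosure K) → ZMod p) (L N : Type)
      (_ : Field L) (_ : NumberField L) (_ : Field N) (_ : NumberField N) (_ : Algebra K L)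
      (_ : Algebra K N) (_ : Algebra F L) (_ : Algebra F N) (_ : Algebra M N) (_ : Algebra L N)
      (_ : Algebra L (AlgebraicClosure K)) (_ : Algebra N (AlgebraicClosure K))
      (_ : IsScalarTower F L (AlgebraicClosure K)) (_ : IsScalarTower L N (AlgebraicClosure K))
      (S₀ : Finset (HeightOneSpectrum (𝓞 K))) (ι ι' : Type) (v : ι → HeightOneSpectrum (𝓞 L))
      (v' : ι' → HeightOneSpectrum (𝓞 N))
      (χ : Fin (δ + 1) → (AlgebraicClosure K ≃ₐ[L] AlgebraicClosure K) → ZMod p)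
      (x y : ι → Fin (δ + 1) → ZMod p) (x' y' : ι' → Fin (δ + 1) → ZMod p) (c : ι → ℕ)
      (c' : ι' → ℕ), Cmp K F M L N (AlgebraicClosure K) p ∧
      LayG F L (AlgebraicClosure K) p v₀ χ₀ ∧ un K v₀ ∈ S₀ ∧ S₀.card = 3 ∧
      (∀ w ∈ S₀, w ∉ B') ∧ (∀ w ∈ S₀, (nm w).Prime) ∧ (∀ w ∈ S₀, p ∣ nm w ^ c₀ - 1) ∧
      2 * e ≤ orderOf ω ∧ ¬ p ∣ classNumber L ∧ ¬ (p : ℤ) ∣ discr L ∧
      (∀ P : HeightOneSpectrum (𝓞 N), un K P ∉ S₀ →
        ∀ g ∈ P.asIdeal.inertia (N ≃ₐ[M] N), g = 1) ∧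
      (∀ P : HeightOneSpectrum (𝓞 N), un K P ∈ S₀ → ∀ d : N ≃ₐ[L] N, cj d P = P → d = 1) ∧
      Sev K L (AlgebraicClosure K) p δ e ω S₀ v χ x y c ∧ Shp x ∧
      Sev K N (AlgebraicClosure K) p δ e ω S₀ v' (fun a g => χ a (rs L g)) x' y' c' ∧ Shp x'

/-- the data over `L` and `N`, from the units of `M` -/
theorem dataU_of {K F M : Type} [Field K] [NumberField K] [Field F] [NumberField F] [Field M]
    [NumberField M] [Algebra K F] [Algebra K M] [Algebra F M] [IsScalarTower K F M]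
    [IsGalois K F] [IsGalois K M] [Algebra F (AlgebraicClosure K)]
    [Algebra M (AlgebraicClosure K)] [IsScalarTower K F (AlgebraicClosure K)]
    [IsScalarTower K M (AlgebraicClosure K)] [IsScalarTower F M (AlgebraicClosure K)]
    [hgF : IsGalois F (AlgebraicClosure K)]
    (hinf : IsUnramifiedAtInfinitePlaces K F) {k e : ℕ}
    (hk : 1 ≤ k) (hke : 2 ^ k = e + e) {s₀ : F ≃ₐ[K] F} {s : M ≃ₐ[K] M}
    (hord : orderOf s₀ = 2 ^ k) (hs₀ : ∀ g, g ∈ Subgroup.zpowers s₀) (hs : orderOf s = 2 ^ k)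
    (hres : ∀ x : F, s (algebraMap F M x) = algebraMap F M (s₀ x))
    (hU : (∀ y : M, ∃ x : F, algebraMap F M x = y) ∨ ∃ N : ℕ, N ≠ 0 ∧ ∀ p : ℕ, ∀ _ : Fact p.Prime, ¬ p ∣ N →
      ∃ m₁ m₂ : Yu p M, ∀ a b : (M ≃ₐ[K] M) → ZMod p,
        ∑ g, a g • ya p g m₁ + ∑ g, b g • ya p g m₂ = 0 →
        (∀ g h, a g = a h) ∧ ∀ g h, b g = b h) :
    ∃ N₀ : ℕ, ∀ (p : ℕ) [Fact p.Prime], N₀ < p → p ≡ 1 [MOD 2 ^ k] →
      ∀ δ : ℕ, 1 ≤ δ → e + e ∣ δ - 1 → 2 * δ ≤ p → DataU K F M p δ e (2 ^ k) := by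
  classical
  have h2k : 2 ≤ 2 ^ k := by
    calc 2 = 2 ^ 1 := (pow_one 2).symm
      _ ≤ 2 ^ k := Nat.pow_le_pow_right (by norm_num) hk
  obtain ⟨N₁, hN₁, hfun⟩ := Helper77.EQ.exists_fun (K := K) s₀ hord h2k
  obtain ⟨N₂, hN₂, hfun2⟩ : ∃ N : ℕ, N ≠ 0 ∧ ∀ p : ℕ, ∀ _ : Fact p.Prime, ¬ p ∣ N →
      ∃ m₁ m₂ : Yu p M, (∀ y : M, ∃ x : F, algebraMap F M x = y) ∨
        ∀ a b : (M ≃ₐ[K] M) → ZMod p,
        ∑ g, a g • ya p g m₁ + ∑ g, b g • ya p g m₂ = 0 →
        (∀ g h, a g = a h) ∧ ∀ g h, b g = b h := by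
    rcases hU with hU | ⟨N, hN, hf⟩
    · exact ⟨1, one_ne_zero, fun p _ _ => ⟨0, 0, Or.inl hU⟩⟩
    · refine ⟨N, hN, fun p hp hpN => ?_⟩
      obtain ⟨m₁, m₂, h⟩ := hf p hp hpN
      exact ⟨m₁, m₂, Or.inr h⟩
  have hFM : IsGalois F M := IsGalois.tower_top_of_isGalois K F M
  have hfin : FiniteDimensional F M := FiniteDimensional.right ℚ F M
  refine ⟨N₁ + N₂ + classNumber F + classNumber M + (discr F).natAbs + (discr M).natAbs +
    finrank F M + 2, ?_⟩
  intro p hpf hpN hpk δ hδ1 hδe hδp B' hB'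
  have hp : p.Prime := hpf.out
  have hp2 : p ≠ 2 := by omega
  have hN : ¬ p ∣ N₁ := Nat.not_dvd_of_pos_of_lt (Nat.pos_of_ne_zero hN₁) (by omega)
  have hN' : ¬ p ∣ N₂ := Nat.not_dvd_of_pos_of_lt (Nat.pos_of_ne_zero hN₂) (by omega)
  have hclF : ¬ p ∣ classNumber F :=
    Nat.not_dvd_of_pos_of_lt (Nat.pos_of_ne_zero (classNumber_ne_zero F)) (by omega)
  have hclM : ¬ p ∣ classNumber M :=
    Nat.not_dvd_of_pos_of_lt (Nat.pos_of_ne_zero (classNumber_ne_zero M)) (by omega)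
  have hdF : ¬ (p : ℤ) ∣ discr F := by
    intro h
    have h1 : p ∣ (discr F).natAbs := Int.natCast_dvd.1 h
    have h2 : 0 < (discr F).natAbs := Int.natAbs_pos.2 (discr_ne_zero F)
    exact Nat.not_dvd_of_pos_of_lt h2 (by omega) h1
  have hdM : ¬ (p : ℤ) ∣ discr M := by
    intro h
    have h1 : p ∣ (discr M).natAbs := Int.natCast_dvd.1 h
    have h2 : 0 < (discr M).natAbs := Int.natAbs_pos.2 (discr_ne_zero M)
    exact Nat.not_dvd_of_pos_of_lt h2 (by omega) h1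
  have hpF : ¬ p ∣ finrank F M := Nat.not_dvd_of_pos_of_lt finrank_pos (by omega)
  obtain ⟨m, hm⟩ := hfun p hpf hN
  obtain ⟨m₁, m₂, hm12⟩ := hfun2 p hpf hN'
  have h2p : 2 ^ k ∣ p - 1 := (Nat.modEq_iff_dvd' hp.one_lt.le).1 hpk.symm
  have hgM : IsGalois M (AlgebraicClosure K) := IsGalois.tower_top_of_isGalois K M (AlgebraicClosure K)
  obtain ⟨ω, P₀, lw, χ₀, L, hL, h, σ, w₀, l₀, hω, hB0, hpr0, hnm0, hpsg0, hlg0, hun0, hfr0, hst0,
    D, hKL, hw0, hh, hσ, T⟩ := Helper84.EQM.exists_firstM (Ω := AlgebraicClosure K) hp2 hclF hdF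
      hdM hpF hk hord hs₀ hs hres h2p hm m₂ B' hB'
  have hgL : IsGalois L (AlgebraicClosure K) := inferInstance
  have hst : IsScalarTower K L (AlgebraicClosure K) := IsScalarTower.of_algebraMap_eq fun x => by
    rw [IsScalarTower.algebraMap_apply K F L, ← IsScalarTower.algebraMap_apply F L,
      ← IsScalarTower.algebraMap_apply K F (AlgebraicClosure K)]
  obtain ⟨N, hNN, algLN, C, -, -⟩ := Helper84.EQM.exists_cmp (K := K) (M := M) D hpF hdM
  have hgN : IsGalois N (AlgebraicClosure K) := inferInstance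
  have tKMN := C.tKMN
  have tKFN := C.tKFN
  have tFMN := C.tFMN
  have tKLN := C.tKLN
  have tKNO := C.tKNO
  have tLNO := C.tLNO
  have gKN := C.gKN
  have gLN : IsGalois L N := IsGalois.tower_top_of_isGalois K L N
  rw [hke] at T hs hω hun0
  obtain ⟨P₁, P₂, l₁, l₂, hl₁, hl₂, n₁, n₂, S₀, ι, v, χ, x, y, c, hS, hcard, hne1, hne2, hne3, hB1,
    hB2, hpr1, hpr2, hpsg1, hpsg2, hf1, hf2, hc1, hc2, hst1, hst2, hn1, hn2, ht1, ht2, hSev, hx⟩ :=
    exists_W' C T hdM hres hσ hs (hord.trans hke) hδ1 hδe hδp m₁ hB'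
  have h5 : un K w₀ = un K P₀ := by rw [← un_un (F := F) w₀, hw0, un_un]
  have he1 : 1 ≤ e := by omega
  have hpe : ¬ p ∣ e + e := by
    rw [← hke]
    exact fun h => hp2 ((Nat.prime_dvd_prime_iff_eq hp Nat.prime_two).1 (hp.dvd_of_dvd_pow h))
  have hω0 : ω ≠ 0 := by
    rintro rfl
    have h5 := pow_orderOf_eq_one (0 : ZMod p)
    rw [hω, zero_pow (by omega)] at h5
    exact zero_ne_one h5
  -- the three primes are different
  have hS' : S₀ = {un K P₀, un K P₁, un K P₂} := by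
    ext w
    rw [hS, h5]
    simp
  have h012 : un K P₀ ≠ un K P₁ ∧ un K P₀ ≠ un K P₂ ∧ un K P₁ ≠ un K P₂ := by
    rw [← h5]
    exact ⟨hne1.symm, hne2.symm, hne3.symm⟩
  have hSB : ∀ w ∈ S₀, w ≠ un K w₀ → w ∉ B' ∧ (nm w).Prime := by
    intro w hw hw0
    rcases (hS w).1 hw with h1 | h1 | h1
    · exact absurd h1 hw0
    · rw [h1]
      exact ⟨hB1, hpr1⟩
    · rw [h1]
      exact ⟨hB2, hpr2⟩
  -- invariance over `F`
  let Δ : Subgroup (M ≃ₐ[K] M) := (AlgEquiv.restrictNormalHom F : (M ≃ₐ[K] M) →* (F ≃ₐ[K] F)).ker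
  have hΔ : ∀ g : M ≃ₐ[K] M, g ∈ Δ ↔ ∀ x : F, g (algebraMap F M x) = algebraMap F M x := by
    intro g
    have h6 : ∀ x : F, algebraMap F M (AlgEquiv.restrictNormalHom F g x) =
        g (algebraMap F M x) := fun x => AlgEquiv.restrictNormal_commutes g F x
    rw [MonoidHom.mem_ker]
    constructor
    · intro h7 x
      rw [← h6, h7, AlgEquiv.one_apply]
    · intro h7
      ext x
      apply (algebraMap F M).injective
      rw [h6, h7, AlgEquiv.one_apply]
  let lF : ∀ g : M ≃ₐ[K] M, g ∈ Δ → (M ≃ₐ[F] M) := fun g hg =>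
    AlgEquiv.ofRingEquiv (f := g.toRingEquiv) ((hΔ g).1 hg)
  have hΔya : ∀ n : Yu p M, (∀ d : M ≃ₐ[F] M, ya p d n = n) → ∀ g ∈ Δ, ya p g n = n := by
    intro n hn g hg
    exact hn (lF g hg)
  have hΔcard : ¬ p ∣ Nat.card Δ := by
    have h1 : Nat.card Δ = Nat.card (M ≃ₐ[F] M) := by
      refine Nat.card_congr ⟨fun g => lF g.1 g.2, fun d => ⟨rsL K d, (hΔ _).2 fun x => d.commutes x⟩,
        fun g => ?_, fun d => ?_⟩
      · apply Subtype.ext
        ext x
        rfl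
      · ext x
        rfl
    rw [h1, IsGalois.card_aut_eq_finrank]
    exact hpF
  have hH : ∀ χ ∈ H M (AlgebraicClosure K) p (up M S₀), ∀ g : AlgebraicClosure K ≃ₐ[K]
      AlgebraicClosure K, Fx F g → cjc g χ = χ := by
    intro χ hχ g hg
    rcases hm12 with hm12 | hm12
    · refine Helper84.LIN.cjc_fx (fun y => ?_) hχ.1
      obtain ⟨x, rfl⟩ := hm12 y
      have h6 : algebraMap M (AlgebraicClosure K) (algebraMap F M x) =
          algebraMap F (AlgebraicClosure K) x := (IsScalarTower.algebraMap_apply F M _ x).symm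
      rw [h6]
      exact hg x
    refine Helper6.EQM.inv_of_logs hp2 hclM Δ hΔcard (σ := s) (e := e) hpe hs hω0 P₀ P₁ P₂ h012.1
      h012.2.1 h012.2.2 ((hst0 s).2 (Subgroup.mem_zpowers s)) (fun g hg => (hst0 g).1 hg) hc1 hst1
      hc2 hst2 hpsg0 hpsg1 hpsg2 hlg0 hl₁ hl₂ hfr0 hf1 hf2 m₁ m₂
      (fun a b hab => ⟨fun g => (hm12 a b hab).1 g 1, fun g => (hm12 a b hab).2 g 1⟩)
      ⟨- av p F M (ei p s (e + e) ω m₂), ?_, ?_⟩ ⟨n₁, hΔya n₁ hn1, ht1⟩ ⟨n₂, hΔya n₂ hn2, ht2⟩ S₀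
      hS' χ hχ g ?_
    · refine hΔya _ fun d => ?_
      rw [map_neg, ya_av]
    · have h1 : lu hlg0 = ei p s (e + e) ω (m₂ - av p F M m₂) := Subtype.ext (funext hun0)
      have h2 : ei p s (e + e) ω m₂ = ((e + e : ℕ) : ZMod p)⁻¹ •
          ∑ j ∈ Finset.range (e + e), ω ^ j • ya p (s ^ j) m₂ := by
        change ((e + e : ℕ) : ZMod p)⁻¹ • ((∑ j ∈ Finset.range (e + e), ω ^ j • ya p (s ^ j) :
          Module.End (ZMod p) (Yu p M)) m₂) = _
        rw [LinearMap.sum_apply]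
        rfl
      rw [h1, map_sub, ← av_ei, ← h2, neg_add_eq_sub]
    · rw [hΔ]
      intro x
      apply (algebraMap M (AlgebraicClosure K)).injective
      rw [rn_apply, ← IsScalarTower.algebraMap_apply F M (AlgebraicClosure K)]
      exact hg x
  have hG : ∀ ψ ∈ H N (AlgebraicClosure K) p (up N S₀), Helper84.LIN.Inv L ψ := by
    intro ψ hψ
    refine Helper42.EQM.inv_of' C S₀ ?_ hH hψ
    exact Helper42.EQM.ur_of C D (by rw [un_un, hS]; exact Or.inl h5.symm)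
  have hst' : ∀ P : HeightOneSpectrum (𝓞 N), un K P ∈ S₀ →
      ∀ d : N ≃ₐ[L] N, cj d P = P → d = 1 := by
    intro P hP d hd
    have hlow : ∀ (j : ℕ), (∀ x : F, (s ^ j) (algebraMap F M x) = algebraMap F M x) →
        s ^ j = 1 := by
      intro j hj
      have h1 : s₀ ^ j = 1 := by
        ext x
        apply (algebraMap F M).injective
        rw [← pow_compat hres, hj]
        rfl
      have h3 := orderOf_dvd_of_pow_eq_one h1
      rw [hord, hke, ← hs] at h3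
      exact orderOf_dvd_iff_pow_eq_one.1 h3
    rcases (hS _).1 hP with h1 | h1 | h1
    · refine st_of C (v := P₀) (fun g hg hgF => ?_) (by rw [h1, h5]) d hd
      have h2 := (hst0 g).1 hg
      rw [mem_zpowers_iff_mem_range_orderOf, Finset.mem_image] at h2
      obtain ⟨j, -, rfl⟩ := h2
      exact hlow j hgF
    · refine st_of C (v := P₁) (fun g hg hgF => ?_) h1 d hd
      rcases hst1 g hg with h2 | h2
      · exact h2
      · rw [h2] at hgF ⊢
        exact hlow e hgF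
    · refine st_of C (v := P₂) (fun g hg hgF => ?_) h1 d hd
      rcases hst2 g hg with h2 | h2
      · exact h2
      · rw [h2] at hgF ⊢
        exact hlow e hgF
  obtain ⟨ι', v', x', y', c', hSev', hx'⟩ := sev_up' (N := N) (by rw [C.dLN]; exact hpF) hδ1
    (by rw [hω]; omega) hSev hx hst' hG
  refine ⟨ω, un F P₀, χ₀, L, N, inferInstance, hL, inferInstance, hNN, inferInstance,
    inferInstance, inferInstance, inferInstance, inferInstance, algLN, inferInstance,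
    inferInstance, inferInstance, inferInstance, S₀, ι, ι', v, v', χ, x, y, x', y', c, c', C, D,
    ?_, hcard, fun w hw => ?_, fun w hw => ?_, fun w hw => ?_, by rw [hω]; omega, T.cl, T.disc,
    fun P hP => ?_, hst', hSev, hx, hSev', hx'⟩
  · rw [un_un, hS]
    exact Or.inl h5.symm
  · by_cases h6 : w = un K w₀
    · rw [h6, h5]
      exact hB0
    · exact (hSB w hw h6).1
  · by_cases h6 : w = un K w₀
    · rw [h6, h5]
      exact hpr0
    · exact (hSB w hw h6).2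
  · refine hSev.dvd D ?_ hw
    rw [← IsGalois.card_aut_eq_finrank, ← hord]
    exact (orderOf_eq_card_of_forall_mem_zpowers hs₀).symm
  · refine inertia_one' C D fun h6 => hP ?_
    rw [← un_un (F := F), h6, un_un, hS]
    exact Or.inl h5.symm

end Pool.Agent.Helper77.EQMU
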