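import Mathlib
import Pool.Agent.Helper77.EQM.U2
import Pool.Agent.Helper77.EQMU.Da
import Pool.Agent.Helper45.EQM.Cp
import Pool.Agent.Helper42.EQMU.Fin

/-!
# Project EQMU: the typed final theorem
-/

set_option autoImplicit false

open NumberField IsDedekindDomain Module

open scoped Pointwise nonZeroDivisors

namespace Pool.Agent.Helper77.EQMU

open Helper45.TC
open Helper42.EQMU (Shape Goal)
open Helper45.EQM (exists_s unr_sup)
open Pool.Agent.Helper90.EQ (dg)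

/-- the two forms of the condition on the inertia vectors -/
lemma shape_of {p δ : ℕ} {ι : Type} {x : ι → Fin (δ + 1) → ZMod p} (hx : Shp x) (j : ι) :
    Shape p δ (x j) := by
  obtain ⟨k, hk, ⟨t, ht⟩ | ⟨t, ht⟩ | ht⟩ := hx j
  · exact ⟨k, hk, Or.inl ⟨t, funext ht⟩⟩
  · exact ⟨k, hk, Or.inr (Or.inl ⟨t, funext ht⟩)⟩
  · exact ⟨k, hk, Or.inr (Or.inr (funext ht))⟩

lemma shp_of {p δ : ℕ} {x : Fin (δ + 1) → ZMod p} (hx : Shape p δ x) :
    Shp (ι := Unit) fun _ => x := by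
  intro j
  obtain ⟨k, hk, ⟨t, ht⟩ | ⟨t, ht⟩ | ht⟩ := hx
  · exact ⟨k, hk, Or.inl ⟨t, fun a => congrFun ht a⟩⟩
  · exact ⟨k, hk, Or.inr (Or.inl ⟨t, fun a => congrFun ht a⟩)⟩
  · exact ⟨k, hk, Or.inr (Or.inr fun a => congrFun ht a)⟩

/-- the linear form -/
theorem hsum {p : ℕ} [Fact p.Prime] {δ : ℕ} (h3 : 3 ≤ δ) (hp : 2 * δ ≤ p) (hd : Odd δ) :
    ∃ C : Fin (δ + 1) → ZMod p, ∀ x, Shape p δ x → ∑ a, C a * x a ≠ 0 := by
  obtain ⟨C, hC⟩ := sum_ne h3 hp hd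
  exact ⟨C, fun x hx => hC Unit (fun _ => x) (shp_of hx) ()⟩

/-- the two forms of the data -/
theorem dataU_iff {K F M : Type} [Field K] [NumberField K] [Field F] [NumberField F] [Field M]
    [NumberField M] [Algebra K F] [Algebra K M] [Algebra F M] [Algebra F (AlgebraicClosure K)]
    [Algebra M (AlgebraicClosure K)] [IsGalois F (AlgebraicClosure K)] {p δ e c₀ : ℕ}
    (h : DataU K F M p δ e c₀) : Helper42.EQMU.DataU K F M p δ e c₀ := by
  intro B' hB'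
  obtain ⟨ω, v₀, χ₀, L, N, i1, i2, i3, i4, i5, i6, i7, i8, i9, i10, i11, i12, i13, i14, S₀, ι, ι',
    v, v', χ, x, y, x', y', c, c', hC, hD, h1, h2, h3, h4, h5, h6, -, -, -, -, h7, h8, h9, h10⟩ :=
    h B' hB'
  exact ⟨ω, v₀, χ₀, L, i1, i2, i5, i7, i11, i13, N, i3, i4, i6, i8, i9, i10, i12, i14, S₀, ι, v, χ,
    x, y, c, ι', v', x', y', c', h6, hC, hD, h1, h2, h3, h4, h5, h7, h9, shape_of h8,
    shape_of h10⟩

/-- the final theorem -/
theorem finalU (K : Type) [Field K] [NumberField K] {k e : ℕ} (hk : 1 ≤ k) (hke : 2 ^ k = e + e)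
    (M₀ F M : IntermediateField K (AlgebraicClosure K)) [NumberField M₀] [NumberField F]
    [NumberField M] [Algebra F M] [IsScalarTower K F M]
    [IsScalarTower F M (AlgebraicClosure K)] (hgal₀ : IsGalois K M₀)
    (hsplit : M₀ = ⊥ ∨ ∃ v₁ v₂ : InfinitePlace K, v₁ ≠ v₂ ∧ ∀ w : InfinitePlace M₀,
      w.comap (algebraMap K M₀) = v₁ ∨ w.comap (algebraMap K M₀) = v₂ → w.IsUnramified K)
    (hgal : IsGalois K F) (hcyc : IsCyclic (F ≃ₐ[K] F)) (hdeg : finrank K F = 2 ^ k)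
    (hinf : IsUnramifiedAtInfinitePlaces K F) (hdis : M₀ ⊓ F = ⊥) (hM : M = M₀ ⊔ F) :
    ∃ N₀ : ℕ, ∀ (p : ℕ) [Fact p.Prime], N₀ < p → p ≡ 1 [MOD 2 ^ k] → ∀ δ : ℕ,
      δ ≡ 1 [MOD 2 ^ k] → 3 ≤ δ → 2 * δ ≤ p → ∀ B : Set (Ideal (𝓞 K)), B.Finite →
      ∃ S : Finset (Ideal (𝓞 K)), S.card = 3 ∧
      (∀ P ∈ S, P ∉ B ∧ P.IsMaximal ∧ (Nat.card (𝓞 K ⧸ P)).Prime ∧
        p ∣ Nat.card (𝓞 K ⧸ P) ^ 2 ^ k - 1) ∧ Goal K F M p δ e S := by
  have hFf : FiniteDimensional K F := FiniteDimensional.right ℚ K F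
  have hM₀f : FiniteDimensional K M₀ := FiniteDimensional.right ℚ K M₀
  have hgF : IsGalois F (AlgebraicClosure K) := inferInstance
  have hgM : IsGalois K M := by
    rw [hM]
    exact {}
  obtain ⟨s₀, hs₀⟩ := hcyc.exists_generator
  have hord : orderOf s₀ = 2 ^ k := by
    rw [orderOf_eq_card_of_forall_mem_zpowers hs₀, IsGalois.card_aut_eq_finrank, hdeg]
  obtain ⟨s, hs, hsx⟩ := exists_s hdis hM s₀
  have hco : ∀ x : F, ((algebraMap F M x : M) : AlgebraicClosure K) = x := fun x =>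
    (IsScalarTower.algebraMap_apply F M (AlgebraicClosure K) x).symm
  have hres : ∀ x : F, s (algebraMap F M x) = algebraMap F M (s₀ x) := fun x =>
    Subtype.ext ((hsx x (algebraMap F M x) (hco x)).trans (hco _).symm)
  obtain ⟨N₀, hN₀⟩ := dataU_of (F := F) (M := M) hinf hk hke hord hs₀ (hs.trans hord) hres (by
    rcases hsplit with rfl | ⟨v₁, v₂, hv, hw⟩
    · left
      intro y
      have hy : (y : AlgebraicClosure K) ∈ F := by
        have h1 : M ≤ F := by rw [hM, bot_sup_eq]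
        exact h1 y.2
      exact ⟨⟨y, hy⟩, Subtype.ext (hco _)⟩
    · right
      have hunr : ∀ v : InfinitePlace K, v = v₁ ∨ v = v₂ → ∀ w : InfinitePlace M,
          w.comap (algebraMap K M) = v → w.IsUnramified K := by
        intro v hv w hwv
        refine unr_sup hM w fun w₀ hw₀ => hw w₀ ?_
        rw [hw₀, hwv]
        exact hv
      exact Helper77.EQM.exists_fun2 hv (hunr v₁ (Or.inl rfl)) (hunr v₂ (Or.inr rfl)))
  refine ⟨N₀ + 2, fun p hpf hpN hpk δ hδ hδ3 hδp B hB => ?_⟩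
  have hp : p.Prime := hpf.out
  have h2k : 2 ∣ 2 ^ k := dvd_pow_self 2 (by omega)
  have hδe : e + e ∣ δ - 1 := by
    rw [← hke]
    exact (Nat.modEq_iff_dvd' (by omega)).1 hδ.symm
  have hδo : Odd δ := by
    obtain ⟨m, hm⟩ : 2 ∣ δ - 1 := (by rw [← hke] at hδe; exact h2k.trans hδe)
    exact ⟨m, by omega⟩
  have he1 : 1 ≤ e := by
    have : 0 < 2 ^ k := by positivity
    omega
  have hep : e < p := by
    obtain ⟨m, hm⟩ := hδe
    have h1 : 1 ≤ m := by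
      rcases Nat.eq_zero_or_pos m with h2 | h2
      · rw [h2, mul_zero] at hm
        omega
      · exact h2
    have h2 : (e + e) * 1 ≤ (e + e) * m := Nat.mul_le_mul_left _ h1
    omega
  exact Helper42.EQMU.final_ofU he1 hep hδp (hsum hδ3 hδp hδo)
    (dataU_iff (hN₀ p (by omega) hpk δ (by omega) hδe hδp)) B hB

end Pool.Agent.Helper77.EQMU
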